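import Pool.Agent.Helper28.PMC.Defs
import Pool.Agent.Helper35.PM.Defs

set_option autoImplicit false

namespace Pool.Agent.Helper28.PMC

open scoped Classical

theorem toggled_iso {V V' : Type} {G : SimpleGraph V} {G' : SimpleGraph V'} (e : G ≃g G')
    (u v x y : V) : Toggled G' (e u) (e v) (e x) (e y) ↔ Toggled G u v x y := by
  simp only [Toggled, setA, setB, Set.mem_ofPred_eq, e.map_adj_iff, ne_eq, EmbeddingLike.apply_eq_iff_eq]

theorem toggle_iso {V V' : Type} {G : SimpleGraph V} {G' : SimpleGraph V'} (e : G ≃g G')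
    (u v x y : V) : (toggle G' (e u) (e v)).Adj (e x) (e y) ↔ (toggle G u v).Adj x y := by
  simp only [toggle, toggled_iso, e.map_adj_iff, ne_eq, EmbeddingLike.apply_eq_iff_eq]

theorem swap_iso {V V' : Type} (e : V ≃ V') (u v x : V) :
    Equiv.swap (e u) (e v) (e x) = e (Equiv.swap u v x) := by
  rw [Equiv.swap_apply_def, Equiv.swap_apply_def]
  split_ifs <;> simp_all

theorem pivot_iso {V V' : Type} {G : SimpleGraph V} {G' : SimpleGraph V'} (e : G ≃g G')
    (u v : V) : Nonempty (pivot G u v ≃g pivot G' (e u) (e v)) := by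
  refine ⟨⟨e.toEquiv, ?_⟩⟩
  intro x y
  change (toggle G' (e u) (e v)).Adj (Equiv.swap (e u) (e v) (e x)) (Equiv.swap (e u) (e v) (e y)) ↔
    (toggle G u v).Adj (Equiv.swap u v x) (Equiv.swap u v y)
  rw [show Equiv.swap (e u) (e v) (e x) = e (Equiv.swap u v x) from swap_iso e.toEquiv u v x,
    show Equiv.swap (e u) (e v) (e y) = e (Equiv.swap u v y) from swap_iso e.toEquiv u v y]
  exact toggle_iso e u v _ _

theorem iso_invariant {W : Type} {H : SimpleGraph W} {V : Type} {G : SimpleGraph V}
    (h : IsPivotMinor H V G) : ∀ (V' : Type) (G' : SimpleGraph V'), Nonempty (G ≃g G') →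
      IsPivotMinor H V' G' := by
  induction h with
  | iso V G h =>
    rintro V' G' ⟨e⟩
    obtain ⟨f⟩ := h
    exact .iso V' G' ⟨f.trans e⟩
  | pivot V G u v hadj _ ih =>
    rintro V' G' ⟨e⟩
    refine .pivot V' G' (e u) (e v) (e.map_adj_iff.2 hadj) ?_
    exact ih V' _ (pivot_iso e u v)
  | delete V G x _ ih =>
    rintro V' G' ⟨e⟩
    refine .delete V' G' (e x) ?_
    refine ih _ _ ⟨⟨e.toEquiv.subtypeEquiv (fun a => by simp), ?_⟩⟩
    intro a b
    exact e.map_adj_iff

/-- An induced subgraph is a pivot-minor. -/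
theorem of_embedding {W : Type} {H : SimpleGraph W} : ∀ (n : ℕ) (V : Type) [Finite V]
    (G : SimpleGraph V), Nat.card V = n → Nonempty (H ↪g G) → IsPivotMinor H V G := by
  intro n
  induction n with
  | zero =>
    rintro V _ G hn ⟨f⟩
    have : IsEmpty V := by
      rcases Nat.card_eq_zero.1 hn with h | h
      · exact h
      · exact absurd h (not_infinite_iff_finite.2 inferInstance)
    refine .iso V G ⟨⟨Equiv.ofBijective f ⟨f.injective, fun y => (this.false y).elim⟩, ?_⟩⟩
    intro a b
    exact f.map_adj_iff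
  | succ n ih =>
    rintro V _ G hn ⟨f⟩
    by_cases hs : Function.Surjective f
    · refine .iso V G ⟨⟨Equiv.ofBijective f ⟨f.injective, hs⟩, ?_⟩⟩
      intro a b
      exact f.map_adj_iff
    · obtain ⟨x, hx0⟩ := not_forall.1 hs
      have hx : ∀ w, f w ≠ x := fun w hw => hx0 ⟨w, hw⟩
      refine .delete V G x ?_
      refine ih _ _ ?_ ⟨⟨⟨fun w => ⟨f w, hx w⟩, fun a b hab => ?_⟩, ?_⟩⟩
      · have h1 := Nat.card_congr (Equiv.optionSubtypeNe x)
        rw [Finite.card_option] at h1
        omega
      · exact f.injective (congrArg Subtype.val hab)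
      · intro a b
        exact f.map_adj_iff

theorem of_step {W : Type} {H : SimpleGraph W} {V : Type} {A B : SimpleGraph V}
    (hAB : Helper35.PM.PivotStep A B) (hB : IsPivotMinor H V B) : IsPivotMinor H V A := by
  obtain ⟨u, v, huv, rfl⟩ := hAB
  refine .pivot V A u v huv ?_
  refine iso_invariant hB V _ ⟨⟨Equiv.swap u v, ?_⟩⟩
  intro x y
  change (toggle A u v).Adj (Equiv.swap u v (Equiv.swap u v x))
    (Equiv.swap u v (Equiv.swap u v y)) ↔ _
  rw [Equiv.swap_apply_self, Equiv.swap_apply_self]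
  change _ ↔ (SimpleGraph.fromRel (fun x y => Xor (A.Adj x y) (Toggled A u v x y))).Adj x y
  rw [SimpleGraph.fromRel_adj, A.adj_comm y x, toggled_comm A u v x y, or_self]
  rfl

theorem of_hasPM {W : Type} {H : SimpleGraph W} {V : Type} [Finite V] {G : SimpleGraph V}
    (h : Helper35.PM.HasPM H G) : IsPivotMinor H V G := by
  obtain ⟨G', hreach, hemb⟩ := h
  have h1 : IsPivotMinor H V G' := of_embedding _ V G' rfl hemb
  clear hemb
  induction hreach using Relation.ReflTransGen.head_induction_on with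
  | refl => exact h1
  | head hstep _ ih => exact of_step hstep ih

end Pool.Agent.Helper28.PMC
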