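import Mathlib

/-!
Literal definitions of pivots (with exchange of the labels) and of pivot-minors
(own statement beside S08043, MP_34cda4).
-/

set_option autoImplicit false

namespace Pool.Agent.Helper28.PMC

open scoped Classical

/-- `A = N(u) ∩ N(v)`. -/
def setA {V : Type} (G : SimpleGraph V) (u v : V) : Set V := {x | G.Adj u x ∧ G.Adj v x}

/-- `B = N(u) \ (N(v) ∪ {v})`. -/
def setB {V : Type} (G : SimpleGraph V) (u v : V) : Set V := {x | G.Adj u x ∧ ¬ G.Adj v x ∧ x ≠ v}

/-- `x` and `y` are in two different sets among `A`, `B`, `C = B(v, u)`. -/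
def Toggled {V : Type} (G : SimpleGraph V) (u v x y : V) : Prop :=
  (x ∈ setA G u v ∧ y ∈ setB G u v) ∨ (x ∈ setB G u v ∧ y ∈ setA G u v) ∨
  (x ∈ setA G u v ∧ y ∈ setB G v u) ∨ (x ∈ setB G v u ∧ y ∈ setA G u v) ∨
  (x ∈ setB G u v ∧ y ∈ setB G v u) ∨ (x ∈ setB G v u ∧ y ∈ setB G u v)

theorem toggled_comm {V : Type} (G : SimpleGraph V) (u v x y : V) :
    Toggled G u v y x ↔ Toggled G u v x y := by
  unfold Toggled; tauto

/-- Toggle adjacency between every pair of vertices in two different sets among `A`, `B`, `C`. -/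
def toggle {V : Type} (G : SimpleGraph V) (u v : V) : SimpleGraph V where
  Adj x y := x ≠ y ∧ Xor (G.Adj x y) (Toggled G u v x y)
  symm := by
    constructor
    intro x y h
    refine ⟨h.1.symm, ?_⟩
    have h2 : G.Adj y x ↔ G.Adj x y := G.adj_comm y x
    rw [h2, toggled_comm G u v x y]
    exact h.2
  loopless := ⟨fun x h => h.1 rfl⟩

/-- The pivot `G ∧ uv`: toggle, then exchange the labels of `u` and `v`. -/
noncomputable def pivot {V : Type} (G : SimpleGraph V) (u v : V) : SimpleGraph V where
  Adj x y := (toggle G u v).Adj (Equiv.swap u v x) (Equiv.swap u v y)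
  symm := ⟨fun _ _ h => (toggle G u v).symm.symm _ _ h⟩
  loopless := ⟨fun _ h => (toggle G u v).loopless.irrefl _ h⟩

/-- `H` is a pivot-minor of `G`: `H` is isomorphic to a graph obtained from `G` by a finite
sequence of pivots and vertex deletions. -/
inductive IsPivotMinor {W : Type} (H : SimpleGraph W) : (V : Type) → SimpleGraph V → Prop
  | iso (V : Type) (G : SimpleGraph V) : Nonempty (H ≃g G) → IsPivotMinor H V G
  | pivot (V : Type) (G : SimpleGraph V) (u v : V) : G.Adj u v →
      IsPivotMinor H V (pivot G u v) → IsPivotMinor H V G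
  | delete (V : Type) (G : SimpleGraph V) (x : V) :
      IsPivotMinor H {y : V // y ≠ x} (G.comap Subtype.val) → IsPivotMinor H V G

end Pool.Agent.Helper28.PMC
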